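import Pool.Agent.Helper10_ACK.WPR
import Pool.Agent.Helper11_ACK.ILF
import Pool.Agent.Helper15_ACK.RSS
import Pool.Agent.Helper15_ACK.TRN
import Pool.Agent.Helper15_ACK.UPR
import Pool.Agent.Helper19_ACK.GWM
import Pool.Agent.Helper21_ACK.CRC
import Pool.Agent.Helper21_ACK.LET
import Pool.Agent.Helper21_ACK.PRW
import Pool.Agent.Helper23_ACK.BGL
import Pool.Agent.Helper24_ACK.LAB
import Pool.Agent.Helper25_ACK.LBL
import Pool.Agent.Helper25_ACK.WIL
import Pool.Agent.Helper27_ACK.ILB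
import Pool.Agent.Helper27_ACK.PDL
import Pool.Agent.Helper27_ACK.ROT
import Pool.Agent.Helper35_ACK.SUR
import Pool.Agent.Helper36_ACK.MRA
import Pool.Agent.Helper36_ACK.MTC
import Pool.Agent.Helper39_ACK.STD
import Pool.Agent.Helper39_ACK.WHT
import Pool.Agent.Helper44_ACK.DIC
import Pool.Agent.Helper45_ACK.LOO
import Pool.Agent.Helper45_ACK.TRI
import Pool.Agent.Helper45_ACK.WCH
import Pool.Agent.Helper46_ACK.AUT
import Pool.Agent.Helper46_ACK.CLS
import Pool.Agent.Helper46_ACK.EUL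
import Pool.Agent.Helper46_ACK.TWC
import Pool.Agent.Helper46_ACK.UPP
import Pool.Agent.Helper47_ACK.CST
import Pool.Agent.Helper47_ACK.EXX
import Pool.Agent.Helper50_ACK.CWG
import Pool.Agent.Helper50_ACK.LOW
import Pool.Agent.Helper51_ACK.BIG
import Pool.Agent.Helper51_ACK.GFW
import Pool.Agent.Helper51_ACK.KRN
import Pool.Agent.Helper58_ACK.MTE
import Pool.Agent.Helper60_ACK.NRM
import Pool.Agent.Helper60_ACK.SIZ
import Pool.Agent.Helper62_ACK.CIR
import Pool.Agent.Helper62_ACK.FEW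
import Pool.Agent.Helper62_ACK.RKA
import Pool.Agent.Helper62_ACK.WKN
import Pool.Agent.Helper64_ACK.LDS
import Pool.Agent.Helper64_ACK.RTK
import Pool.Agent.Helper64_ACK.SUM
import Pool.Agent.Helper64_ACK.WPL
import Pool.Agent.Helper65_ACK.GPB
import Pool.Agent.Helper66_ACK.PD2
import Pool.Agent.Helper66_ACK.RNM
import Pool.Agent.Helper66_ACK.SYM
import Pool.Agent.Helper67_ACK.MNE
import Pool.Agent.Helper69_ACK.FIB
import Pool.Agent.Helper6_ACK.ILG
import Pool.Agent.Helper6_ACK.LAD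
import Pool.Agent.Helper70_ACK.CNT
import Pool.Agent.Helper75_ACK.ARI
import Pool.Agent.Helper76_ACK.ISO
import Pool.Agent.Helper77_ACK.ILM
import Pool.Agent.Helper77_ACK.MON
import Pool.Agent.Helper77_ACK.NLP
import Pool.Agent.Helper77_ACK.PRM
import Pool.Agent.Helper82_ACK.NRA
import Pool.Agent.Helper85_ACK.TWN
import Pool.Agent.Helper86_ACK.PAR
import Pool.Agent.Helper88_ACK.DFS
import Pool.Agent.Helper88_ACK.FIN
import Pool.Agent.Helper89_ACK.SAB
import Pool.Agent.Helper8_ACK.QEC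
import Pool.Agent.Helper8_ACK.RKB
import Pool.Agent.Helper92_ACK.FLG
import Pool.Agent.Helper92_ACK.FOU
import Pool.Agent.Helper92_ACK.LTC
import Pool.Agent.Helper95_ACK.BFL
import Pool.Agent.Helper95_ACK.COU
import Pool.Agent.Helper95_ACK.WCL

/-!
# Prime alternating knots by crosscap number: clause 3 fails for `k = 3` (the flype model)

The definitions are in `Pool/Agent/ACK/Defs.lean`.
-/

set_option autoImplicit false

namespace Pool.Agent.Results.MP_0b396c_gt.FlypeModel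

open Pool.Agent.ACK

/-- `An 3 c < An 3 (c - 1)` and `an 3 c < an 3 (c - 1)` for all large even `c`. -/
theorem result : ∃ c0 : ℕ, ∀ c, c0 ≤ c → Even c → An 3 c < An 3 (c - 1) ∧ an 3 c < an 3 (c - 1) := by
  have hgfw : GfwStmt := Pool.Agent.ACK.H51.gfw
  have hprw : PrwStmt := Pool.Agent.ACK.H21.prw
  have hrot : RotStmt := Pool.Agent.ACK.H27.rot
  have hnlp : NlpStmt := Pool.Agent.ACK.H77.nlp
  have hcwg : CwgStmt := Pool.Agent.ACK.H50.cwg
  have hmte : MteStmt := Pool.Agent.ACK.H58.mte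
  have hcls : ClsStmt := Pool.Agent.ACK.H46.cls hmte
  have hsiz : SizStmt := Pool.Agent.ACK.H60.siz hcls
  have hgpb : GpbStmt := Pool.Agent.ACK.H65.gpb
  have hrtk : RtkStmt := Pool.Agent.ACK.H64.rtk
  have hflg : FlgStmt := Pool.Agent.ACK.H92.flg
  have hbgl : BglStmt := Pool.Agent.ACK.H23.bgl
  have hmra : MraStmt := Pool.Agent.ACK.H36.mra hcwg
  have hcst : CstStmt := Pool.Agent.ACK.H47.cst hgfw hrtk hcwg hflg hbgl hgpb hmra
  have hcrc : B.CrcStmt := Pool.Agent.ACK.H21.crc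
  have hsum : B.SumStmt := Pool.Agent.ACK.H64.sum
  have hltc : B.LtcStmt := Pool.Agent.ACK.H92.ltc
  have hrka : B.RkaStmt := Pool.Agent.ACK.H62.rka hltc
  have hkrn : B.KrnStmt := Pool.Agent.ACK.H51.krn
  have hrkb : B.RkbStmt := Pool.Agent.ACK.H8.rkb hkrn
  have hpdl : B.PdlStmt := Pool.Agent.ACK.H27.pdl hsum hrka hrkb
  have hpd2 : B.Pd2Stmt := Pool.Agent.ACK.H66.pd2 hpdl
  have htri : B.TriStmt := Pool.Agent.ACK.H45.tri
  have hmne : B.MneStmt := Pool.Agent.ACK.H67.mne hcrc hpd2 htri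
  have hmon : MonStmt := Pool.Agent.ACK.H77.mon hgfw hprw hnlp hcrc hmne
  have hdic : DicStmt := Pool.Agent.ACK.H44.dic hgfw hprw hrot hnlp hcwg hsiz hgpb hcst hmon
  have hstd : StdStmt := Pool.Agent.ACK.H39.std
  have hrnm : RnmStmt := Pool.Agent.ACK.H66.rnm
  have hcou : CouStmt := Pool.Agent.ACK.H95.cou hcwg hstd hrnm
  have hlet : C.LetStmt := Pool.Agent.ACK.H21.letRow
  have hloo : C.LooStmt := Pool.Agent.ACK.H45.loo hgfw hprw hnlp hcwg hlet
  have hbig : C.BigStmt := Pool.Agent.ACK.H51.big hcwg hgpb hlet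
  have hcir : C.CirStmt := Pool.Agent.ACK.H62.cir hcwg hlet
  have hdfs : C.DfsStmt := Pool.Agent.ACK.H88.dfs_row hgpb hloo hbig hcir
  have hprm : C.PrmStmt := Pool.Agent.ACK.H77.prm hcwg
  have hlds : C.LdsStmt := Pool.Agent.ACK.H64.lds
  have hlad : C.LadStmt := Pool.Agent.ACK.H6.lad hcwg hlet hlds
  have hsur : C.SurStmt := Pool.Agent.ACK.H35.sur hlet hlds
  have hlbl : C.LblStmt := Pool.Agent.ACK.H25.lbl
  have hwht : C.WhtStmt := Pool.Agent.ACK.H39.wht hlad hsur hlbl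
  have htrn : C.TrnStmt := Pool.Agent.ACK.H15.trn
  have hnra : C.NraStmt := Pool.Agent.ACK.H82.nra
  have hnrm : C.NrmStmt := Pool.Agent.ACK.H60.nrm htrn hnra
  have hfin : C.FinStmt := Pool.Agent.ACK.H88.fin
  have hiso : C.IsoStmt := Pool.Agent.ACK.H76.iso
  have hmtc : C.MtcStmt := Pool.Agent.ACK.H36.mtc hrtk htrn hiso
  have hsym : C.SymStmt := Pool.Agent.ACK.H66.sym hmtc
  have hbfl : C.BflStmt := Pool.Agent.ACK.H95.bfl
  have hexx : C.ExxStmt := Pool.Agent.ACK.H47.exx hcwg hbfl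
  have hpar : C.ParStmt := Pool.Agent.ACK.H86.parRow hcwg
  have hupp : C.UppStmt := Pool.Agent.ACK.H46.upp hcwg hstd hdfs hprm hwht hnrm hfin hmtc hsym hexx hpar
  have hqec : QecStmt := Pool.Agent.ACK.H8.qec
  have hupr : UprStmt := Pool.Agent.ACK.H15.upr hdic hcou hupp hqec
  have hwcl : D.WclStmt := Pool.Agent.ACK.H95.wcl
  have hwil : D.WilStmt := Pool.Agent.ACK.H25.wil
  have hilb : D.IlbStmt := Pool.Agent.ACK.H27.ilb
  have hwpr : D.WprStmt := Pool.Agent.ACK.H10.wpr hilb hwcl hwil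
  have hwch : D.WchStmt := Pool.Agent.ACK.H45.wch
  have hlab : D.LabStmt := Pool.Agent.ACK.H24.lab
  have heul : D.EulStmt := Pool.Agent.ACK.H46.eul
  have hwpl : D.WplStmt := Pool.Agent.ACK.H64.wpl hwcl hwch hlab heul hgfw
  have hfew : FewStmt := Pool.Agent.ACK.H62.few hgfw hprw hrot hnlp hsiz hgpb hcst
  have htwc : D.TwcStmt := Pool.Agent.ACK.H46.twc
  have hfou : D.FouStmt := Pool.Agent.ACK.H92.fou hfew hilb htwc
  have hwkn : D.WknStmt := Pool.Agent.ACK.H62.wkn hwcl hwil hwpr hwpl hfou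
  have hilm : D.IlmStmt := Pool.Agent.ACK.H77.ilm
  have hilf : D.IlfStmt := Pool.Agent.ACK.H11.ilf
  have hgwm : D.GwmStmt := Pool.Agent.ACK.H19.gwm
  have hilg : D.IlgStmt := Pool.Agent.ACK.H6.ilg hilb hilm hilf hgwm
  have htwn : D.TwnStmt := Pool.Agent.ACK.H85.twn
  have haut : D.AutStmt := Pool.Agent.ACK.H46.aut
  have hfib : D.FibStmt := Pool.Agent.ACK.H69.fib hilg htwn hwcl hwil haut
  have hsab : D.SabStmt := Pool.Agent.ACK.H89.sab
  have hcnt : D.CntStmt := Pool.Agent.ACK.H70.cnt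
  have hlow : D.LowStmt := Pool.Agent.ACK.H50.low hwkn hfib hsab hcnt
  have hari : AriStmt := Pool.Agent.ACK.H75.ari
  have hrss : RssStmt := Pool.Agent.ACK.H15.rss hupr hlow hari
  exact hrss

end Pool.Agent.Results.MP_0b396c_gt.FlypeModel
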